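import Pool.Agent.Run7.h42.WN_MNA

set_option autoImplicit false

/-!
# Project WN (helper291), part MNB (helper42): the mean of the two-point function
-/

namespace Run7.h42.WN

open Finset Filter MeasureTheory Topology Complex UnitAddTorus
open Pool.Agent.N748.MG Pool.Agent.N748.MJ Run7.h291.WN
open Pool.Agent.N748.MG.CON (lR lC_ofReal lC_zero lC_one lC_bd bb bb_sum FF FF_summable Gp Gp_bd)
open Pool.Agent.N748.GC (pt HP Sm S_ERG)
open Pool.Agent.N748.MJ.POSV (bs pu)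

/-! ### the local factors -/

/-- the local factor -/
noncomputable def ga (k : ℝ) (p : ℕ) (h : ℝ) : ℝ :=
  (1 - 1 / (p:ℝ)) ^ (2 * k ^ 2) * ‖bs p h‖ ^ (2 * k ^ 2) * SR k p (pc p h)

/-- the local factor -/
noncomputable def gb (k : ℝ) (p : ℕ) : ℝ := (1 - 1 / (p:ℝ)) ^ (k ^ 2) * FR k p

theorem bs_zero (p : ℕ) : bs p 0 = ((1 - 1 / (p:ℝ) : ℝ) : ℂ) := by
  unfold Pool.Agent.N748.MJ.POSV.bs Pool.Agent.N748.MJ.POSV.pu
  have : (-(((1 + 2 * (0 : ℝ) : ℝ) : ℂ) + ((0 : ℝ) : ℂ) * I)) = -1 := by simp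
  rw [this, Complex.cpow_neg_one]
  push_cast
  rw [one_div]

theorem pair_pow {p : ℕ} (hp : p.Prime) (h c : ℝ) :
    (bs p (-h)) ^ (c:ℂ) * (bs p h) ^ (c:ℂ) = ((‖bs p h‖ ^ (2 * c) : ℝ) : ℂ) := by
  have hne := Pool.Agent.N748.MJ.POSV.bs_ne hp h
  rw [Complex.cpow_def_of_ne_zero (Pool.Agent.N748.MJ.POSV.bs_ne hp (-h)),
    Complex.cpow_def_of_ne_zero hne, ← Complex.exp_add, ← add_mul,
    ← Pool.Agent.N748.MJ.POSV.bs_log_conj hp, add_comm, Complex.add_conj, Complex.log_re,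
    Real.rpow_def_of_pos (norm_pos_iff.2 hne), Complex.ofReal_exp]
  congr 1
  push_cast
  ring

theorem cj_real (k : ℝ) : cj (fun _ : Fin 2 => (k:ℂ)) = fun _ : Fin 2 => (k:ℂ) := by
  funext j
  unfold cj
  exact Complex.conj_ofReal _

theorem SV_SR (k : ℝ) {p : ℕ} (hp : p.Prime) (h : ℝ) :
    POSV.SV (fun _ : Fin 2 => (k:ℂ)) (fun _ : Fin 2 => (k:ℂ)) ![0, h] p = ((SR k p (pc p h) : ℝ) : ℂ) := by
  unfold POSV.SV SR
  rw [Complex.ofReal_tsum]
  refine tsum_congr fun m => ?_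
  rw [cj_real, lV_tm hp.pos, Complex.mul_conj', POSV.xp]
  push_cast
  rfl

theorem gV_loc (k : ℝ) {p : ℕ} (hp : p.Prime) (h : ℝ) :
    gV (fun _ : Fin 2 => (k:ℂ)) (fun _ : Fin 2 => (k:ℂ)) ![0, h] 0 p = ((ga k p h : ℝ) : ℂ) := by
  obtain ⟨h0, h1⟩ := pinv hp
  rw [POSV.gV_eq, SV_SR k hp]
  unfold ga
  rw [Complex.ofReal_mul]
  congr 1
  rw [Fin.prod_univ_two, Fin.prod_univ_two, Fin.prod_univ_two]
  simp only [Matrix.cons_val_zero, Matrix.cons_val_one, sub_self, zero_sub, sub_zero]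
  have hk2 : (k:ℂ) * (k:ℂ) = ((k ^ 2 : ℝ) : ℂ) := by push_cast; ring
  rw [hk2, bs_zero]
  have h3 := pair_pow hp h (k ^ 2)
  have h4 : (((1 - 1 / (p:ℝ) : ℝ) : ℂ)) ^ ((k ^ 2 : ℝ) : ℂ) = (((1 - 1 / (p:ℝ)) ^ (k ^ 2) : ℝ) : ℂ) := by
    rw [Complex.ofReal_cpow (by linarith)]
  rw [h4]
  have h5 : (1 - 1 / (p:ℝ)) ^ (2 * k ^ 2) = (1 - 1 / (p:ℝ)) ^ (k ^ 2) * (1 - 1 / (p:ℝ)) ^ (k ^ 2) := by
    rw [← Real.rpow_add (by linarith)]
    congr 1
    ring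
  rw [h5]
  push_cast at h3 ⊢
  rw [← h3]
  ring

theorem Gp_loc (k : ℝ) {p : ℕ} (hp : p.Prime) : Gp (k:ℂ) (1 / (p:ℂ)) = ((gb k p : ℝ) : ℂ) := by
  obtain ⟨h0, h1⟩ := pinv hp
  unfold Pool.Agent.N748.MG.CON.Gp gb
  rw [FF_FR, Complex.ofReal_mul]
  congr 1
  rw [Complex.ofReal_cpow (by linarith)]
  push_cast
  rfl

theorem gb_pos (k : ℝ) {p : ℕ} (hp : p.Prime) : 0 < gb k p := by
  obtain ⟨h0, h1⟩ := pinv hp
  unfold gb
  exact mul_pos (Real.rpow_pos_of_pos (by linarith) _) (lt_of_lt_of_le one_pos (FR_one k hp))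

theorem quo (k : ℝ) {p : ℕ} (hp : p.Prime) (h : ℝ) :
    ga k p h / gb k p ^ 2 = ‖bs p h‖ ^ (2 * k ^ 2) * rr k p (pc p h) := by
  obtain ⟨h0, h1⟩ := pinv hp
  have h2 : 0 < (1 - 1 / (p:ℝ)) ^ (k ^ 2) := Real.rpow_pos_of_pos (by linarith) _
  have h3 := FR_one k hp
  have h5 : (1 - 1 / (p:ℝ)) ^ (2 * k ^ 2) = (1 - 1 / (p:ℝ)) ^ (k ^ 2) * (1 - 1 / (p:ℝ)) ^ (k ^ 2) := by
    rw [← Real.rpow_add (by linarith)]
    congr 1
    ring
  unfold ga gb rr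
  rw [h5]
  have h6 : FR k p ≠ 0 := by positivity
  field_simp


/-! ### the product over all primes -/

theorem locbd (k : ℝ) : ∃ C : ℝ, 0 < C ∧ ∀ p : ℕ, p.Prime →
    |gb k p - 1| ≤ C / (p:ℝ) ^ 2 ∧ ∀ h : ℝ, |ga k p h - 1| ≤ C / (p:ℝ) ^ 2 := by
  obtain ⟨K, hK⟩ := exists_nat_ge ‖(k:ℂ)‖
  obtain ⟨C1, hC1, h1⟩ := Gp_bd K
  obtain ⟨C2, hC2, h2⟩ := Pool.Agent.N748.MJ.GVB.main Pool.Agent.N748.MJ.BND.main 2 ‖(k:ℂ)‖ (norm_nonneg _)
  refine ⟨C1 + C2, by positivity, fun p hp => ⟨?_, fun h => ?_⟩⟩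
  · obtain ⟨x0, x1⟩ := pinv hp
    have hn : ‖(1 / (p:ℂ))‖ = 1 / (p:ℝ) := by rw [norm_div, norm_one, Complex.norm_natCast]
    have h3 := h1 k (1 / (p:ℂ)) hK (by rw [hn]; exact x1)
    rw [hn, Gp_loc k hp, ← Complex.ofReal_one, ← Complex.ofReal_sub, Complex.norm_real, Real.norm_eq_abs,
      div_pow, one_pow, mul_one_div] at h3
    refine h3.trans ?_
    gcongr
    linarith
  · have h3 := (h2 (fun _ => (k:ℂ)) (fun _ => (k:ℂ)) ![0, h] (fun _ => le_rfl) (fun _ => le_rfl) p hp 0 le_rfl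
      zero_le_one).1
    rw [gV_loc k hp, ← Complex.ofReal_one, ← Complex.ofReal_sub, Complex.norm_real, Real.norm_eq_abs] at h3
    refine h3.trans ?_
    gcongr
    linarith

theorem prodA {g : Nat.Primes → ℝ} {C : ℝ} (hg : ∀ p, |g p - 1| ≤ C / (p:ℝ) ^ 2) {a : ℂ}
    (ha : a = ∏' p : Nat.Primes, (1 + (((g p : ℝ) : ℂ) - 1))) :
    Tendsto (fun I : Finset Nat.Primes => ∏ p ∈ I, g p) atTop (𝓝 a.re) := by
  have hs : Summable fun p : Nat.Primes => ((g p : ℝ) : ℂ) - 1 := by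
    refine Summable.of_norm_bounded (POSV.sum_px C) fun p => ?_
    rw [← Complex.ofReal_one, ← Complex.ofReal_sub, Complex.norm_real, Real.norm_eq_abs]
    exact hg p
  have hm := (Complex.multipliable_one_add_of_summable hs).hasProd
  rw [← ha] at hm
  have h1 := (Complex.continuous_re.tendsto a).comp hm
  refine h1.congr fun I => ?_
  simp only [Function.comp_apply, add_sub_cancel]
  rw [← Complex.ofReal_prod, Complex.ofReal_re]

theorem aV_lim (k h : ℝ) : Tendsto (fun I : Finset Nat.Primes => ∏ p ∈ I, ga k p h) atTop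
    (𝓝 (aV (fun _ : Fin 2 => (k:ℂ)) (fun _ : Fin 2 => (k:ℂ)) ![0, h]).re) := by
  obtain ⟨C, hC, hb⟩ := locbd k
  refine prodA (g := fun p => ga k p h) (fun p => (hb p p.2).2 h) ?_
  rw [POSV.aV_eq]
  refine tprod_congr fun p => ?_
  rw [gV_loc k p.2]

theorem aC_lim (k : ℝ) : Tendsto (fun I : Finset Nat.Primes => ∏ p ∈ I, gb k p) atTop
    (𝓝 (aC (k:ℂ)).re) := by
  obtain ⟨C, hC, hb⟩ := locbd k
  refine prodA (g := fun p => gb k p) (fun p => (hb p p.2).1) ?_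
  rw [Pool.Agent.N748.MG.CON.aC_eq]
  refine tprod_congr fun p => ?_
  rw [Gp_loc k p.2]

theorem aC_pos (k : ℝ) : 0 < (aC (k:ℂ)).re := by
  obtain ⟨r, hr, h⟩ := Pool.Agent.N748.MG.CON.real_pos k
  rw [h]
  simpa using hr

theorem quo_lim (k h : ℝ) : Tendsto (fun I : Finset Nat.Primes =>
    ∏ p ∈ I, (‖bs p h‖ ^ (2 * k ^ 2) * rr k p (pc p h))) atTop
    (𝓝 ((aV (fun _ : Fin 2 => (k:ℂ)) (fun _ : Fin 2 => (k:ℂ)) ![0, h]).re / (aC (k:ℂ)).re ^ 2)) := by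
  have h1 := (aV_lim k h).div ((aC_lim k).pow 2) (pow_ne_zero 2 (aC_pos k).ne')
  refine h1.congr fun I => ?_
  simp only [Pi.div_apply]
  rw [← prod_pow, ← prod_div_distrib]
  exact prod_congr rfl fun p _ => quo k p.2 h

theorem quo_nonneg (k : ℝ) {p : ℕ} (hp : p.Prime) (h : ℝ) : 0 ≤ ‖bs p h‖ ^ (2 * k ^ 2) * rr k p (pc p h) :=
  mul_nonneg (Real.rpow_nonneg (norm_nonneg _) _) (rr_nonneg k hp _)

theorem small (C p : ℝ) (hC : 0 < C) (hp : 0 < p) (h : 5 * C ≤ p ^ 2) {a b : ℝ} (ha : |a - 1| ≤ C / p ^ 2)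
    (hb : |b - 1| ≤ C / p ^ 2) : a / b ^ 2 ≤ Real.exp (5 * C / p ^ 2) := by
  set t : ℝ := C / p ^ 2 with ht
  have hp2 : 0 < p ^ 2 := by positivity
  have ht0 : 0 < t := by positivity
  have ht4 : t ≤ 1 / 5 := by
    rw [ht, div_le_iff₀ hp2]
    linarith
  have h1 := (abs_le.1 ha).2
  have h2 := (abs_le.1 hb).1
  have h3 : 1 - 2 * t ≤ b ^ 2 := by nlinarith
  have h4 : a / b ^ 2 ≤ (1 + t) / (1 - 2 * t) := by
    have hb0 : 0 < 1 - 2 * t := by linarith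
    have : a ≤ 1 + t := by linarith
    by_cases ha0 : 0 ≤ a
    · exact div_le_div₀ (by linarith) this hb0 h3
    · have h5 : a / b ^ 2 ≤ 0 := div_nonpos_of_nonpos_of_nonneg (by linarith) (by positivity)
      exact h5.trans (by positivity)
  have h5 : (1 + t) / (1 - 2 * t) ≤ 1 + 5 * t := by
    rw [div_le_iff₀ (by linarith)]
    nlinarith
  have h6 := Real.add_one_le_exp (5 * t)
  have h7 : 5 * C / p ^ 2 = 5 * t := by rw [ht]; ring
  rw [h7]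
  linarith

theorem tail (k ε : ℝ) (hε : 0 < ε) : ∃ z0 : ℕ, ∀ z : ℕ, z0 ≤ z → ∀ h : ℝ,
    (aV (fun _ : Fin 2 => (k:ℂ)) (fun _ : Fin 2 => (k:ℂ)) ![0, h]).re / (aC (k:ℂ)).re ^ 2 ≤
      Real.exp ε * ∏ p ∈ Sm z, (‖bs p h‖ ^ (2 * k ^ 2) * rr k p (pc p h)) := by
  classical
  obtain ⟨C, hC, hb⟩ := locbd k
  obtain ⟨s, hs⟩ := (summable_iff_vanishing_norm.1 (POSV.sum_px (5 * C))) ε hε
  obtain ⟨N, hN⟩ := exists_nat_ge (5 * C)
  refine ⟨max (s.sup (fun p : Nat.Primes => (p:ℕ)) + 1) (N + 1), fun z hz h => ?_⟩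
  have hz1 : s.sup (fun p : Nat.Primes => (p:ℕ)) < z := (le_max_left _ _).trans hz
  have hz2 : N < z := (le_max_right _ _).trans hz
  set S : Finset Nat.Primes := (Sm z).subtype Nat.Prime with hS
  have hSm : ∏ p ∈ S, (‖bs p h‖ ^ (2 * k ^ 2) * rr k p (pc p h)) =
      ∏ p ∈ Sm z, (‖bs p h‖ ^ (2 * k ^ 2) * rr k p (pc p h)) :=
    Finset.prod_subtype_of_mem (fun p : ℕ => ‖bs p h‖ ^ (2 * k ^ 2) * rr k p (pc p h)) fun p hp => Sm_prime p hp
  rw [← hSm]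
  refine le_of_tendsto (quo_lim k h) ((eventually_ge_atTop S).mono fun I hI => ?_)
  rw [← prod_sdiff hI, mul_comm]
  have hPS : 0 ≤ ∏ p ∈ S, (‖bs p h‖ ^ (2 * k ^ 2) * rr k p (pc p h)) :=
    prod_nonneg fun p _ => quo_nonneg k p.2 h
  rw [mul_comm (Real.exp ε)]
  refine mul_le_mul_of_nonneg_left ?_ hPS
  have hmem : ∀ p ∈ I \ S, z ≤ (p:ℕ) := by
    intro p hp
    by_contra hc
    push Not at hc
    rw [Finset.mem_sdiff] at hp
    apply hp.2
    refine Finset.mem_subtype.2 ?_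
    unfold Pool.Agent.N748.GC.Sm
    rw [mem_filter, mem_range]
    exact ⟨hc, p.2⟩
  calc ∏ p ∈ I \ S, (‖bs p h‖ ^ (2 * k ^ 2) * rr k p (pc p h))
      ≤ ∏ p ∈ I \ S, Real.exp (5 * C / (p:ℝ) ^ 2) := by
        refine prod_le_prod (fun p _ => quo_nonneg k p.2 h) fun p hp => ?_
        rw [← quo k p.2 h]
        have h1 : z ≤ (p:ℕ) := hmem p hp
        have h2 : (N:ℝ) + 1 ≤ (p:ℕ) := by exact_mod_cast (Nat.succ_le_of_lt hz2).trans h1
        have h3 : (0:ℝ) < (p:ℕ) := by exact_mod_cast p.2.pos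
        refine small C (p:ℕ) hC h3 ?_ ((hb p p.2).2 h) (hb p p.2).1
        have h4 : (0:ℝ) ≤ N := Nat.cast_nonneg _
        nlinarith
    _ = Real.exp (∑ p ∈ I \ S, 5 * C / (p:ℝ) ^ 2) := (Real.exp_sum _ _).symm
    _ ≤ Real.exp ε := by
        apply Real.exp_le_exp.2
        have hd : Disjoint (I \ S) s := by
          rw [Finset.disjoint_left]
          intro p hp hps
          have h1 := hmem p hp
          have h2 : (p:ℕ) ≤ s.sup (fun p : Nat.Primes => (p:ℕ)) := Finset.le_sup (f := fun p : Nat.Primes => (p:ℕ)) hps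
          omega
        have h3 := hs _ hd
        exact ((le_abs_self _).trans h3.le)


/-! ### the shift to the right -/

/-- the factor at `1 + 2δ + i h` -/
noncomputable def vf (p : ℕ) (δ h : ℝ) : ℂ := 1 - (p:ℂ) ^ (-(1 + 2 * δ + h * I : ℂ))

theorem pw_eq {p : ℕ} (hp : p.Prime) (δ h : ℝ) : (p:ℂ) ^ (-(1 + 2 * δ + h * I : ℂ)) =
    (((p:ℝ) ^ (-(1 + 2 * δ)) : ℝ) : ℂ) * (p:ℂ) ^ (-((h:ℂ) * I)) := by
  have hp0 : (p : ℂ) ≠ 0 := by exact_mod_cast hp.ne_zero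
  rw [Complex.ofReal_cpow (by positivity), Complex.ofReal_natCast, ← Complex.cpow_add _ _ hp0]
  congr 1
  push_cast
  ring

theorem vf_lower {p : ℕ} (hp : p.Prime) {δ : ℝ} (hδ : 0 ≤ δ) (h : ℝ) : 1 / 2 ≤ ‖vf p δ h‖ := by
  have h1 : ‖(p:ℂ) ^ (-(1 + 2 * δ + h * I : ℂ))‖ ≤ 1 / 2 := by
    rw [pw_eq hp, norm_mul, GVB.norm_th p hp.one_le, mul_one, GVB.x_norm p hp.two_le δ hδ]
    exact (GVB.x_bd p hp.two_le δ hδ).2.2
  unfold vf
  have h2 := norm_sub_norm_le (1:ℂ) ((p:ℂ) ^ (-(1 + 2 * δ + h * I : ℂ)))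
  rw [norm_one] at h2
  linarith

theorem x_diff {p : ℕ} (hp : p.Prime) {δ : ℝ} (hδ : 0 ≤ δ) :
    |(p:ℝ) ^ (-(1 + 2 * (0:ℝ))) - (p:ℝ) ^ (-(1 + 2 * δ))| ≤ 2 * δ := by
  have hpr : (2:ℝ) ≤ p := by exact_mod_cast hp.two_le
  have hp0 : (0:ℝ) < p := by linarith
  have e3 : (p : ℝ) ^ (-(1 + 2 * δ)) = (1 / (p : ℝ)) * Real.exp (-(2 * δ * Real.log p)) := by
    rw [show -(1 + 2 * δ) = -1 + -(2 * δ) by ring, Real.rpow_add hp0, Real.rpow_neg_one,
      one_div, Real.rpow_def_of_pos hp0]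
    congr 2
    ring
  have e4 : (p : ℝ) ^ (-(1 + 2 * (0 : ℝ))) = 1 / (p : ℝ) := POSV.xp
  rw [e3, e4]
  have hl : 0 ≤ Real.log p := Real.log_nonneg (by linarith)
  have h5 := Real.add_one_le_exp (-(2 * δ * Real.log p))
  have h6 : Real.exp (-(2 * δ * Real.log p)) ≤ 1 := by
    rw [← Real.exp_zero]
    refine Real.exp_le_exp.2 ?_
    have : 0 ≤ 2 * δ * Real.log p := by positivity
    linarith
  have h8 : 0 < 1 / (p : ℝ) := by positivity
  have h9 : Real.log p ≤ p := (Real.log_le_sub_one_of_pos hp0).trans (by linarith)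
  have h10 : 1 / (p:ℝ) * (2 * δ * Real.log p) ≤ 2 * δ := by
    rw [one_div, inv_mul_le_iff₀ hp0]
    nlinarith
  rw [abs_le]
  constructor
  · nlinarith
  · nlinarith

theorem bs_le {p : ℕ} (hp : p.Prime) {δ : ℝ} (hδ : 0 ≤ δ) (h : ℝ) :
    ‖bs p h‖ ≤ Real.exp (4 * δ) * ‖vf p δ h‖ := by
  have h0 : bs p h = 1 - (((p:ℝ) ^ (-(1 + 2 * (0:ℝ))) : ℝ) : ℂ) * (p:ℂ) ^ (-((h:ℂ) * I)) := by
    rw [← pw_eq hp]
    unfold Pool.Agent.N748.MJ.POSV.bs Pool.Agent.N748.MJ.POSV.pu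
    push_cast
    rfl
  have h1 : bs p h = vf p δ h - ((((p:ℝ) ^ (-(1 + 2 * (0:ℝ))) - (p:ℝ) ^ (-(1 + 2 * δ))) : ℝ) : ℂ) *
      (p:ℂ) ^ (-((h:ℂ) * I)) := by
    rw [h0]
    unfold vf
    rw [pw_eq hp δ h]
    push_cast
    ring
  have h2 : ‖bs p h‖ ≤ ‖vf p δ h‖ + 2 * δ := by
    rw [h1]
    refine (norm_sub_le _ _).trans ?_
    rw [norm_mul, GVB.norm_th p hp.one_le, mul_one, Complex.norm_real, Real.norm_eq_abs]
    linarith [x_diff hp hδ]
  have h3 := vf_lower hp hδ h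
  have h4 := Real.add_one_le_exp (4 * δ)
  nlinarith

theorem prod_bs (z : ℕ) {δ : ℝ} (hδ : 0 ≤ δ) (h : ℝ) :
    ∏ p ∈ Sm z, ‖bs p h‖ ≤ Real.exp (4 * δ * z) * ∏ p ∈ Sm z, ‖vf p δ h‖ := by
  have h1 : ∏ p ∈ Sm z, ‖bs p h‖ ≤ ∏ p ∈ Sm z, (Real.exp (4 * δ) * ‖vf p δ h‖) :=
    prod_le_prod (fun _ _ => norm_nonneg _) fun p hp => bs_le (Sm_prime p hp) hδ h
  rw [prod_mul_distrib, prod_const] at h1
  refine h1.trans (mul_le_mul_of_nonneg_right ?_ (prod_nonneg fun _ _ => norm_nonneg _))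
  rw [← Real.exp_nat_mul]
  apply Real.exp_le_exp.2
  have h2 : ((Sm z).card : ℝ) ≤ z := by
    have : (Sm z).card ≤ z := by
      unfold Pool.Agent.N748.GC.Sm
      exact (card_filter_le _ _).trans (by rw [card_range])
    exact_mod_cast this
  nlinarith

theorem zz_norm (z : ℕ) (δ h : ℝ) : ‖zz z δ h‖ = ‖riemannZeta (1 + 2 * δ + h * I)‖ * ∏ p ∈ Sm z, ‖vf p δ h‖ := by
  unfold Run7.h291.WN.zz Pool.Agent.N748.GC.Sm vf
  rw [norm_mul, norm_prod]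

theorem B2_le {k ε : ℝ} (z : ℕ) {δ h : ℝ} (hδ : 0 ≤ δ)
    (hz : (aV (fun _ : Fin 2 => (k:ℂ)) (fun _ : Fin 2 => (k:ℂ)) ![0, h]).re / (aC (k:ℂ)).re ^ 2 ≤
      Real.exp ε * ∏ p ∈ Sm z, (‖bs p h‖ ^ (2 * k ^ 2) * rr k p (pc p h))) :
    B2 k δ h ≤ Real.exp ε * Real.exp (4 * δ * z * (2 * k ^ 2)) *
      (PR k z (pt (Sm z) h) * ‖zz z δ h‖ ^ (2 * k ^ 2)) := by
  unfold Run7.h291.WN.B2
  have hq : 0 ≤ 2 * k ^ 2 := by positivity
  have hPR := PR_nonneg k z (pt (Sm z) h)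
  have e1 : ∏ p ∈ Sm z, (‖bs p h‖ ^ (2 * k ^ 2) * rr k p (pc p h)) =
      (∏ p ∈ Sm z, ‖bs p h‖) ^ (2 * k ^ 2) * PR k z (pt (Sm z) h) := by
    rw [prod_mul_distrib, PR_pt, ← Real.finsetProd_rpow _ _ fun _ _ => norm_nonneg _]
  have e2 : (∏ p ∈ Sm z, ‖bs p h‖) ^ (2 * k ^ 2) ≤
      Real.exp (4 * δ * z * (2 * k ^ 2)) * (∏ p ∈ Sm z, ‖vf p δ h‖) ^ (2 * k ^ 2) := by
    have := Real.rpow_le_rpow (prod_nonneg fun _ _ => norm_nonneg _) (prod_bs z hδ h) hq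
    rwa [Real.mul_rpow (Real.exp_pos _).le (prod_nonneg fun _ _ => norm_nonneg _), ← Real.exp_mul] at this
  rw [zz_norm, Real.mul_rpow (norm_nonneg _) (prod_nonneg fun _ _ => norm_nonneg _)]
  rw [e1] at hz
  have hZ : 0 ≤ ‖riemannZeta (1 + 2 * δ + h * I)‖ ^ (2 * k ^ 2) := Real.rpow_nonneg (norm_nonneg _) _
  calc (aV (fun _ : Fin 2 => (k:ℂ)) (fun _ : Fin 2 => (k:ℂ)) ![0, h]).re / (aC (k:ℂ)).re ^ 2 *
        ‖riemannZeta (1 + 2 * δ + h * I)‖ ^ (2 * k ^ 2)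
      ≤ (Real.exp ε * ((Real.exp (4 * δ * z * (2 * k ^ 2)) * (∏ p ∈ Sm z, ‖vf p δ h‖) ^ (2 * k ^ 2)) *
          PR k z (pt (Sm z) h))) * ‖riemannZeta (1 + 2 * δ + h * I)‖ ^ (2 * k ^ 2) := by
        refine mul_le_mul_of_nonneg_right (hz.trans ?_) hZ
        exact mul_le_mul_of_nonneg_left (mul_le_mul_of_nonneg_right e2 hPR) (Real.exp_pos _).le
    _ = _ := by ring


/-! ### the mean -/

theorem vf_cont {p : ℕ} (hp : p.Prime) (δ : ℝ) : Continuous fun h : ℝ => vf p δ h := by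
  unfold vf
  refine continuous_const.sub (Continuous.const_cpow ?_ (Or.inl (by exact_mod_cast hp.ne_zero)))
  fun_prop

theorem zz_cont (z : ℕ) {δ : ℝ} (hδ : 0 < δ) : Continuous fun h : ℝ => zz z δ h := by
  unfold Run7.h291.WN.zz
  refine Continuous.mul ?_ (continuous_finsetProd _ fun p hp => vf_cont (mem_filter.1 hp).2 δ)
  rw [continuous_iff_continuousAt]
  intro h
  have hne : (1 + 2 * δ + h * I : ℂ) ≠ 1 := by
    intro hc
    have := congrArg Complex.re hc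
    simp at this
    linarith
  have h1 := (differentiableAt_riemannZeta hne).continuousAt
  have h2 : ContinuousAt (fun h : ℝ => (1 + 2 * δ + h * I : ℂ)) h := by fun_prop
  exact ContinuousAt.comp (g := riemannZeta) (f := fun h : ℝ => (1 + 2 * δ + h * I : ℂ)) h1 h2

theorem mx_cont (z : ℕ) {δ : ℝ} (hδ : 0 < δ) {q : ℝ} (hq : 0 ≤ q) :
    Continuous fun h : ℝ => max (‖zz z δ h‖ ^ q - 1) 0 := by
  have h1 : Continuous fun h : ℝ => ‖zz z δ h‖ ^ q :=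
    (zz_cont z hδ).norm.rpow_const fun _ => Or.inr hq
  exact (h1.sub continuous_const).max continuous_const

theorem zlim (A B C c : ℝ) (hc : 0 < c) : Tendsto (fun z : ℕ => A * Real.log z ^ B * (C * (z:ℝ) ^ (-c))) atTop (𝓝 0) := by
  have h1 := (isLittleO_log_rpow_rpow_atTop B hc).tendsto_div_nhds_zero
  have h2 := (h1.comp tendsto_natCast_atTop_atTop).const_mul (A * C)
  rw [mul_zero] at h2
  refine h2.congr' ?_
  filter_upwards [eventually_gt_atTop 0] with z hz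
  have hz' : (0:ℝ) < z := by exact_mod_cast hz
  simp only [Function.comp_apply]
  rw [Real.rpow_neg hz'.le]
  ring

theorem mnb : Run7.h291.WN.S_ZML → Run7.h291.WN.S_MNB := by
  intro hZ k hk ε hε
  set q : ℝ := 2 * k ^ 2 with hq
  have hq0 : 0 ≤ q := by positivity
  obtain ⟨c, Cc, hc, hCc, hzml⟩ := hZ q hq0
  obtain ⟨A, B, hA, hB, hPRb⟩ := PR_bd hk.le
  set e : ℝ := min ε 1 / 14 with he
  have he0 : 0 < e := by positivity
  have he1 : e ≤ 1 / 14 := by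
    rw [he]
    linarith [min_le_right ε 1]
  have heε : 14 * e ≤ ε := by
    rw [he]
    linarith [min_le_left ε 1]
  obtain ⟨z0, htail⟩ := tail k e he0
  have hev : ∀ᶠ z : ℕ in atTop, A * Real.log z ^ B * (Cc * (z:ℝ) ^ (-c)) < e :=
    (zlim A B Cc c hc).eventually (gt_mem_nhds he0)
  obtain ⟨z1, hz1⟩ := eventually_atTop.1 hev
  set z : ℕ := max (max z0 z1) 3 with hz
  have hz3 : 3 ≤ z := le_max_right _ _
  have hzz0 : z0 ≤ z := (le_max_left _ _).trans (le_max_left _ _)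
  have hzz1 : z1 ≤ z := (le_max_right _ _).trans (le_max_left _ _)
  have hsm := hz1 z hzz1
  have hz3' : (3:ℝ) ≤ z := by exact_mod_cast hz3
  have hlz : 0 < Real.log z := Real.log_pos (by linarith)
  set M : ℝ := A * Real.log z ^ B with hM
  have hM0 : 0 < M := mul_pos hA (Real.rpow_pos_of_pos hlz _)
  set w : ℝ := Cc * (z:ℝ) ^ (-c) with hw
  have hw0 : 0 < w := mul_pos hCc (Real.rpow_pos_of_pos (by linarith) _)
  obtain ⟨H0, hH0, hzm⟩ := hzml z (by omega)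
  obtain ⟨H1, hH1, herg⟩ := Pool.Agent.N748.GC.ERG.main (Sm z) (fun p hp => Sm_prime p hp) (PR k z)
    (PR_cont hk.le z) e he0
  rw [PR_int hk.le z] at herg
  set K : ℝ := Real.exp (2 * e) with hK
  have hK0 : 0 < K := Real.exp_pos _
  refine ⟨K * (M * H1 + M * (w * H0)) + 1, min (1 / 16) (e / (4 * z * q + 1)), by positivity,
    lt_min (by norm_num) (by positivity), fun δ hδ hδ0 x hx => ?_⟩
  have hδ1 : δ ≤ 1 / 16 := hδ0.trans (min_le_left _ _)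
  have hδ2 : 4 * δ * z * q ≤ e := by
    have h1 : δ ≤ e / (4 * z * q + 1) := hδ0.trans (min_le_right _ _)
    rw [le_div_iff₀ (by positivity)] at h1
    nlinarith
  -- pointwise
  have hpt : ∀ h : ℝ, B2 k δ h ≤ K * (PR k z (pt (Sm z) h) + M * max (‖zz z δ h‖ ^ q - 1) 0) := by
    intro h
    have h1 := B2_le z hδ.le (htail z hzz0 h)
    have hPR := PR_nonneg k z (pt (Sm z) h)
    have h2 : Real.exp e * Real.exp (4 * δ * z * (2 * k ^ 2)) ≤ K := by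
      rw [← Real.exp_add, hK]
      apply Real.exp_le_exp.2
      linarith
    have h3 : ‖zz z δ h‖ ^ q ≤ 1 + max (‖zz z δ h‖ ^ q - 1) 0 := by
      linarith [le_max_left (‖zz z δ h‖ ^ q - 1) 0]
    have h4 := hPRb z hz3 (pt (Sm z) h)
    have h5 : PR k z (pt (Sm z) h) * ‖zz z δ h‖ ^ q ≤
        PR k z (pt (Sm z) h) + M * max (‖zz z δ h‖ ^ q - 1) 0 := by
      have h6 := mul_le_mul_of_nonneg_left h3 hPR
      have h7 : PR k z (pt (Sm z) h) * max (‖zz z δ h‖ ^ q - 1) 0 ≤ M * max (‖zz z δ h‖ ^ q - 1) 0 :=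
        mul_le_mul_of_nonneg_right h4 (le_max_right _ _)
      linarith
    refine h1.trans (mul_le_mul h2 h5 (mul_nonneg hPR (Real.rpow_nonneg (norm_nonneg _) _)) hK0.le)
  -- integrals
  have cPR : Continuous fun h : ℝ => PR k z (pt (Sm z) h) :=
    (PR_cont hk.le z).comp (Pool.Agent.N748.GC.ERG.pt_cont (Sm z))
  have cMX := mx_cont z hδ hq0
  have I1 : ∫ h in (1:ℝ)..x, PR k z (pt (Sm z) h) ≤ (1 + e) * x + M * H1 := by
    by_cases hc1 : H1 ≤ x - 1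
    · have h1 := herg (x - 1) hc1 1
      rw [add_sub_cancel] at h1
      have h2 := (abs_le.1 h1).2
      have h3 : 0 < x - 1 := lt_of_lt_of_le hH1 hc1
      have h4 : (∫ h in (1:ℝ)..x, PR k z (pt (Sm z) h)) / (x - 1) ≤ 1 + e := by linarith
      rw [div_le_iff₀ h3] at h4
      have h5 : 0 < M * H1 := by positivity
      nlinarith
    · push Not at hc1
      have h1 : ∫ h in (1:ℝ)..x, PR k z (pt (Sm z) h) ≤ ∫ _h in (1:ℝ)..x, M :=
        intervalIntegral.integral_mono_on hx (cPR.intervalIntegrable _ _)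
          (continuous_const.intervalIntegrable _ _) fun h _ => hPRb z hz3 _
      rw [intervalIntegral.integral_const, smul_eq_mul] at h1
      have h2 : (x - 1) * M ≤ M * H1 := by nlinarith
      have h3 : 0 ≤ (1 + e) * x := by positivity
      linarith
  have I2 : ∫ h in (1:ℝ)..x, max (‖zz z δ h‖ ^ q - 1) 0 ≤ w * x + w * H0 := by
    by_cases hc2 : H0 ≤ x
    · have h1 := hzm x hc2 δ hδ hδ1 q hq0 le_rfl
      have h2 : 0 < w * H0 := by positivity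
      linarith
    · push Not at hc2
      have h1 := hzm H0 le_rfl δ hδ hδ1 q hq0 le_rfl
      have h2 : ∫ h in (1:ℝ)..x, max (‖zz z δ h‖ ^ q - 1) 0 ≤ ∫ h in (1:ℝ)..H0, max (‖zz z δ h‖ ^ q - 1) 0 := by
        rw [← intervalIntegral.integral_add_adjacent_intervals (cMX.intervalIntegrable 1 x)
          (cMX.intervalIntegrable x H0)]
        have h3 : 0 ≤ ∫ h in x..H0, max (‖zz z δ h‖ ^ q - 1) 0 :=
          intervalIntegral.integral_nonneg hc2.le fun h _ => le_max_right _ _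
        linarith
      have h4 : 0 < w * x := by positivity
      linarith
  have hKe : K * (1 + 2 * e) ≤ 1 + ε := by
    have h1 := Real.abs_exp_sub_one_le (x := 2 * e) (by rw [abs_of_pos (by positivity)]; linarith)
    rw [abs_of_pos (by positivity : (0:ℝ) < 2 * e)] at h1
    have h2 := (abs_le.1 h1).2
    have h3 : K ≤ 1 + 4 * e := by rw [hK]; linarith
    have h4 : K * (1 + 2 * e) ≤ (1 + 4 * e) * (1 + 2 * e) := mul_le_mul_of_nonneg_right h3 (by positivity)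
    nlinarith
  have hx0 : 0 < x := by linarith
  by_cases hint : IntervalIntegrable (fun h => B2 k δ h) volume 1 x
  · have cR : Continuous fun h : ℝ => K * (PR k z (pt (Sm z) h) + M * max (‖zz z δ h‖ ^ q - 1) 0) :=
      continuous_const.mul (cPR.add (continuous_const.mul cMX))
    have h1 := intervalIntegral.integral_mono_on hx hint (cR.intervalIntegrable _ _) fun h _ => hpt h
    have cM2 : Continuous fun h : ℝ => M * max (‖zz z δ h‖ ^ q - 1) 0 := continuous_const.mul cMX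
    rw [intervalIntegral.integral_const_mul, intervalIntegral.integral_add (cPR.intervalIntegrable _ _)
      (cM2.intervalIntegrable _ _), intervalIntegral.integral_const_mul] at h1
    refine h1.trans ?_
    have h2 : (∫ h in (1:ℝ)..x, PR k z (pt (Sm z) h)) + M * (∫ h in (1:ℝ)..x, max (‖zz z δ h‖ ^ q - 1) 0) ≤
        ((1 + e) * x + M * H1) + M * (w * x + w * H0) :=
      add_le_add I1 (mul_le_mul_of_nonneg_left I2 hM0.le)
    have h3 : M * (w * x) ≤ e * x := by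
      have := mul_le_mul_of_nonneg_right hsm.le hx0.le
      linarith
    calc K * ((∫ h in (1:ℝ)..x, PR k z (pt (Sm z) h)) + M * (∫ h in (1:ℝ)..x, max (‖zz z δ h‖ ^ q - 1) 0))
        ≤ K * ((1 + 2 * e) * x + (M * H1 + M * (w * H0))) := by
          refine mul_le_mul_of_nonneg_left ?_ hK0.le
          linarith
      _ = K * (1 + 2 * e) * x + K * (M * H1 + M * (w * H0)) := by ring
      _ ≤ (1 + ε) * x + (K * (M * H1 + M * (w * H0)) + 1) := by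
          have := mul_le_mul_of_nonneg_right hKe hx0.le
          linarith
  · rw [intervalIntegral.integral_undef hint]
    positivity

end Run7.h42.WN
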