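import Pool.Agent.Run7.h42.WN_MAXC
import Pool.Agent.N748.MG.Inp

set_option autoImplicit false

/-!
# Project WN (helper291), part MAXU (helper42): the maximum of zeta in windows
-/

namespace Run7.h42.WN

open Finset Filter MeasureTheory Topology Complex
open Pool.Agent.N748 Pool.Agent.N748.MG

theorem t_sup : T_SUP := HM.SUP.main

theorem t_zw : T_ZW := by
  intro D hD
  obtain ⟨a, b, ha, hb, h⟩ := HM.ZM3.main HM.ZM1.main HM.ZM2.main D hD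
  obtain ⟨lam, δ0, hδ0, hδ1, h⟩ := h 2 le_rfl
  refine ⟨a, b, ha, hb, lam, δ0, hδ0, hδ1, ?_⟩
  filter_upwards [h] with X hX δ hδ hδ2 hl y K hy hay hbK hK δ' g1 g2
  have h2 := hX δ hδ hδ2 hl y K (by exact_mod_cast hy) hay hbK hK δ' g1 g2
  have h3 : (fun t : ℝ => ‖HM.Ez 2 y K (1 / 2 + δ' + t * I)‖ ^ 2) =
      fun t : ℝ => ‖riemannZeta (pw δ' t) * AS (-1) y K (pw δ' t) - 1‖ ^ 2 := by
    funext t
    rw [Inp.ez y hy]
    rfl
  rw [h3] at h2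
  exact h2

theorem t_xw : T_XW := by
  intro D hD
  obtain ⟨a, b, ha, hb, δ0, hδ0, hδ1, h⟩ := HM.XS2.main HM.SUP.main D hD
  refine ⟨a, b, ha, hb, δ0, hδ0, hδ1, ?_⟩
  filter_upwards [h] with X hX δ hδ hδ2 y hy hy2 hX3 H hH hHX
  have h2 := hX δ hδ hδ2 2 y le_rfl (by exact_mod_cast hy) hy2 hX3 H hH hHX
  have h4 : ∀ u : ℝ, GC.ec (1 / 2 + δ + u * I) (GC.xc (HM.PP 2 y)) = ∑ p ∈ PA y, (p:ℂ) ^ (-(pw δ u)) := by
    intro u
    unfold GC.xc
    rw [map_sum, Inp.PP_two]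
    refine Finset.sum_congr rfl fun p _ => ?_
    rw [Inp.ecs, one_mul]
    rfl
  refine (measure_mono ?_).trans h2
  rintro t ⟨ht1, ht2, u, hu1, hu2, hu3⟩
  refine ⟨ht1, ht2, u, hu1, hu2, ?_⟩
  rw [h4 u]
  exact hu3

/-- (MAXU) the maximum of zeta in windows, upper bound -/
theorem maxu : Run7.h291.WN.S_MAXU := maxu0 t_sup t_zw t_xw Inp.mea

end Run7.h42.WN
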