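import Pool.Agent.Run7.h291.WN.Stm2
import Pool.Agent.N748.MG.NIC
import Pool.Agent.N748.MG.MVS
import Pool.Agent.N748.MG.SIZ
import Pool.Agent.N748.MG.DIA2
import Pool.Agent.N748.MG.CMP
import Pool.Agent.N748.MG.EUL
import Pool.Agent.N748.MG.CONT

set_option autoImplicit false

/-!
# Project WN (helper291), part MAXU (helper42): the maximum of zeta in windows, main argument
-/

namespace Run7.h42.WN

open Finset Filter MeasureTheory Topology Complex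
open Pool.Agent.N748.MG

/-! ### the mean square of the polynomial -/

/-- the real coefficients -/
noncomputable def dR (q : ℝ) (n : ℕ) : ℝ := ∏ p ∈ n.primeFactors, CON.lR q (n.factorization p)

theorem dS_real (q : ℝ) (n : ℕ) : dS (q:ℂ) n = ((dR q n : ℝ) : ℂ) := by
  unfold dS dR
  push_cast
  exact prod_congr rfl fun p _ => CON.lC_ofReal q _

theorem dS_sq (q δ : ℝ) (n : ℕ) : dS (q:ℂ) n ^ 2 * (((n:ℝ) ^ (-(1 + 2 * δ)) : ℝ) : ℂ) =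
    ((dR q n ^ 2 * (n:ℝ) ^ (-(1 + 2 * δ)) : ℝ) : ℂ) := by
  rw [dS_real]
  push_cast
  rfl

theorem AS_sq (q : ℝ) (y : ℝ) (K : ℕ) (w : ℂ) :
    AS (q:ℂ) y K w * (starRingEnd ℂ) (AS (q:ℂ) y K w) = ((‖AS (q:ℂ) y K w‖ ^ 2 : ℝ) : ℂ) := by
  rw [Complex.mul_conj']
  push_cast
  rfl

theorem tsum_bd (q : ℝ) (hq : 0 ≤ q) : ∃ C δ1 : ℝ, 1 ≤ C ∧ 0 < δ1 ∧ δ1 ≤ 1 ∧ ∀ δ : ℝ, 0 < δ → δ ≤ δ1 → ∀ δ' : ℝ,
    δ / 2 ≤ δ' → δ' ≤ 3 * δ / 2 → ∀ F : Finset ℕ,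
    ∑ n ∈ F, dR q n ^ 2 * (n:ℝ) ^ (-(1 + 2 * δ')) ≤ C * δ ^ (-(q ^ 2)) := by
  obtain ⟨δ0, hδ0, hd⟩ := DIA2.main q hq 1 one_pos
  obtain ⟨k, hk⟩ := exists_nat_ge ‖(q:ℂ)‖
  refine ⟨‖aC q‖ + 1, min (δ0 / 2) 1, by linarith [norm_nonneg (aC q)], by positivity, min_le_right _ _,
    fun δ hδ hδ1 δ' h1 h2 F => ?_⟩
  have hδ' : 0 < δ' := by linarith
  have hδ'0 : δ' ≤ δ0 := by
    have := hδ1.trans (min_le_left _ _)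
    linarith
  have hqn : ‖(q:ℂ)‖ ≤ q := by rw [Complex.norm_real, Real.norm_of_nonneg hq]
  have h3 := hd δ' hδ' hδ'0 q hqn
  have hs := DIA2.ft_summable (q:ℂ) k hk hδ'
  set f : ℕ → ℝ := fun n => dR q n ^ 2 * (n:ℝ) ^ (-(1 + 2 * δ')) with hf
  have hf0 : ∀ n, 0 ≤ f n := fun n => by
    rw [hf]
    positivity
  have hfs : Summable f := by
    refine hs.congr fun n => ?_
    unfold DIA2.ft
    rw [dS_sq, Complex.norm_real, Real.norm_of_nonneg (hf0 n)]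
  have h4 : (∑' n : ℕ, dS (q:ℂ) n ^ 2 * (((n:ℝ) ^ (-(1 + 2 * δ')) : ℝ) : ℂ)) = ((∑' n, f n : ℝ) : ℂ) := by
    rw [Complex.ofReal_tsum]
    exact tsum_congr fun n => dS_sq q δ' n
  rw [h4] at h3
  have h5 : ((2 * δ' : ℝ) : ℂ) ^ ((q:ℂ) ^ 2) = (((2 * δ') ^ (q ^ 2) : ℝ) : ℂ) := by
    rw [Complex.ofReal_cpow (by positivity)]
    push_cast
    rfl
  rw [h5, ← Complex.ofReal_mul] at h3
  have h6 : (2 * δ') ^ (q ^ 2) * ∑' n, f n ≤ ‖aC q‖ + 1 := by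
    have h7 : ‖(((2 * δ') ^ (q ^ 2) * ∑' n, f n : ℝ) : ℂ)‖ ≤ ‖aC q‖ + 1 := by
      have e : (((2 * δ') ^ (q ^ 2) * ∑' n, f n : ℝ) : ℂ) =
          ((((2 * δ') ^ (q ^ 2) * ∑' n, f n : ℝ) : ℂ) - aC q) + aC q := by ring
      rw [e]
      refine (norm_add_le _ _).trans ?_
      linarith
    rw [Complex.norm_real] at h7
    exact (le_abs_self _).trans h7
  have h8 : (δ:ℝ) ^ (q ^ 2) ≤ (2 * δ') ^ (q ^ 2) :=
    Real.rpow_le_rpow hδ.le (by linarith) (by positivity)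
  have h9 : 0 < δ ^ (q ^ 2) := Real.rpow_pos_of_pos hδ _
  have h10 : 0 ≤ ∑' n, f n := tsum_nonneg hf0
  have h11 : δ ^ (q ^ 2) * ∑' n, f n ≤ ‖aC q‖ + 1 := (mul_le_mul_of_nonneg_right h8 h10).trans h6
  have h12 : ∑' n, f n ≤ (‖aC q‖ + 1) * δ ^ (-(q ^ 2)) := by
    rw [Real.rpow_neg hδ.le, ← div_eq_mul_inv, le_div_iff₀ h9]
    linarith
  exact (hfs.sum_le_tsum F fun n _ => hf0 n).trans h12

theorem ms (q : ℝ) (hq : 0 ≤ q) : ∃ C δ1 : ℝ, 1 ≤ C ∧ 0 < δ1 ∧ ∀ δ : ℝ, 0 < δ → δ ≤ δ1 → ∀ δ' : ℝ,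
    δ / 2 ≤ δ' → δ' ≤ 3 * δ / 2 → ∀ (y : ℝ) (K : ℕ) (X : ℝ), 2 ≤ y → 0 < X → C * ((K + 1) * Real.log y) ≤ Real.log X →
    ∫ t in (0:ℝ)..X, ‖AS (q:ℂ) y K (pw δ' t)‖ ^ 2 ≤ C * X * δ ^ (-(q ^ 2)) := by
  obtain ⟨C0, δ1, hC0, hδ1, hδ11, hts⟩ := tsum_bd q hq
  obtain ⟨C1, hC1, hsz⟩ := SIZ.main q hq
  refine ⟨C0 + 4 + (2 * C1 + 1), δ1, by linarith, hδ1, fun δ hδ hδ0 δ' h1 h2 y K X hy hX hl => ?_⟩
  have hδ' : 0 < δ' := by linarith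
  obtain ⟨hN, hS⟩ := hsz y hy K
  have hqn : ‖(q:ℂ)‖ ≤ q := by rw [Complex.norm_real, Real.norm_of_nonneg hq]
  have hS1 := hS q hqn
  have hm := MVS.main (FS y K) (Real.exp (K * Real.log y)) (dS (q:ℂ)) (dS (q:ℂ)) hN δ' X hδ'.le hX.le
  have hly : 0 < Real.log y := Real.log_pos (by linarith)
  have hK0 : (0:ℝ) ≤ K := Nat.cast_nonneg K
  have e1 : (∫ t in (0:ℝ)..X, (∑ n ∈ FS y K, dS (q:ℂ) n * (n:ℂ) ^ (-(pw δ' t))) *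
      (starRingEnd ℂ) (∑ n ∈ FS y K, dS (q:ℂ) n * (n:ℂ) ^ (-(pw δ' t)))) =
      ((∫ t in (0:ℝ)..X, ‖AS (q:ℂ) y K (pw δ' t)‖ ^ 2 : ℝ) : ℂ) := by
    rw [← intervalIntegral.integral_ofReal]
    refine intervalIntegral.integral_congr fun t _ => ?_
    exact AS_sq q y K (pw δ' t)
  have e2 : ∑ n ∈ FS y K, dS (q:ℂ) n * (starRingEnd ℂ) (dS (q:ℂ) n) * (((n:ℝ) ^ (-(1 + 2 * δ')) : ℝ) : ℂ) =
      ((∑ n ∈ FS y K, dR q n ^ 2 * (n:ℝ) ^ (-(1 + 2 * δ')) : ℝ) : ℂ) := by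
    rw [Complex.ofReal_sum]
    refine sum_congr rfl fun n _ => ?_
    rw [dS_real, Complex.conj_ofReal]
    push_cast
    ring
  rw [e1, e2, ← Complex.ofReal_mul, ← Complex.ofReal_sub, Complex.norm_real, Real.norm_eq_abs] at hm
  have h3 := (abs_le.1 hm).2
  have h4 := hts δ hδ hδ0 δ' h1 h2 (FS y K)
  have h5 : 4 * Real.exp (K * Real.log y) * (∑ n ∈ FS y K, ‖dS (q:ℂ) n‖) * (∑ n ∈ FS y K, ‖dS (q:ℂ) n‖) ≤ 4 * X := by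
    have h6 : 0 ≤ ∑ n ∈ FS y K, ‖dS (q:ℂ) n‖ := sum_nonneg fun _ _ => norm_nonneg _
    have h7 : (∑ n ∈ FS y K, ‖dS (q:ℂ) n‖) * (∑ n ∈ FS y K, ‖dS (q:ℂ) n‖) ≤
        Real.exp (C1 * ((K + 1) * Real.log y)) * Real.exp (C1 * ((K + 1) * Real.log y)) :=
      mul_le_mul hS1 hS1 h6 (Real.exp_pos _).le
    have h8 : Real.exp (K * Real.log y) * (Real.exp (C1 * ((K + 1) * Real.log y)) *
        Real.exp (C1 * ((K + 1) * Real.log y))) ≤ X := by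
      rw [← Real.exp_add, ← Real.exp_add]
      rw [← Real.le_log_iff_exp_le hX]
      refine le_trans ?_ hl
      have h9 : (0:ℝ) ≤ (K + 1) * Real.log y := by positivity
      have h10 : K * Real.log y ≤ (K + 1) * Real.log y := by nlinarith
      nlinarith
    calc 4 * Real.exp (K * Real.log y) * (∑ n ∈ FS y K, ‖dS (q:ℂ) n‖) * (∑ n ∈ FS y K, ‖dS (q:ℂ) n‖)
        = 4 * Real.exp (K * Real.log y) * ((∑ n ∈ FS y K, ‖dS (q:ℂ) n‖) * (∑ n ∈ FS y K, ‖dS (q:ℂ) n‖)) := by ring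
      _ ≤ 4 * Real.exp (K * Real.log y) * (Real.exp (C1 * ((K + 1) * Real.log y)) *
          Real.exp (C1 * ((K + 1) * Real.log y))) := mul_le_mul_of_nonneg_left h7 (by positivity)
      _ ≤ 4 * X := by linarith
  have h11 : (1:ℝ) ≤ δ ^ (-(q ^ 2)) :=
    Real.one_le_rpow_of_pos_of_le_one_of_nonpos hδ (hδ0.trans hδ11) (by nlinarith [sq_nonneg q])
  have h12 : X * ∑ n ∈ FS y K, dR q n ^ 2 * (n:ℝ) ^ (-(1 + 2 * δ')) ≤ X * (C0 * δ ^ (-(q ^ 2))) :=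
    mul_le_mul_of_nonneg_left h4 hX.le
  have h13 : 4 * X ≤ 4 * X * δ ^ (-(q ^ 2)) := le_mul_of_one_le_right (by positivity) h11
  have h14 : 0 ≤ (2 * C1 + 1) * X * δ ^ (-(q ^ 2)) := by positivity
  nlinarith

theorem AS_diff (s : ℂ) (y : ℝ) (K : ℕ) : Differentiable ℂ (AS s y K) := by
  unfold AS
  intro w
  refine DifferentiableAt.fun_sum fun n hn => ?_
  have hn0 : n ≠ 0 := (Finset.mem_filter.mp hn).2.1
  refine (differentiableAt_const _).mul ?_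
  exact (differentiableAt_id.neg).const_cpow (Or.inl (by exact_mod_cast hn0))


/-! ### the inputs -/

/-- from mean squares to maxima over windows (`HM.S_SUP`) -/
def T_SUP : Prop := ∃ C : ℝ, 0 < C ∧ ∀ Φ : ℂ → ℂ, DifferentiableOn ℂ Φ {s : ℂ | 1 / 2 < s.re ∧ s.re < 1} →
  ∀ δ X1 X2 B : ℝ, 0 < δ → δ ≤ 1 / 16 → X1 ≤ X2 → 0 ≤ B →
  (∀ δ' : ℝ, δ / 2 ≤ δ' → δ' ≤ 3 * δ / 2 → ∫ t in X1..X2, ‖Φ (pw δ' t)‖ ^ 2 ≤ B) →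
  ∀ H κ : ℝ, 0 ≤ H → 0 < κ →
  volume {t : ℝ | X1 + 1 ≤ t ∧ t + H + 1 ≤ X2 ∧ ∃ u : ℝ, t ≤ u ∧ u ≤ t + H ∧ κ ≤ ‖Φ (pw δ u)‖} ≤
    ENNReal.ofReal (C * (H + 2) * B / (δ * κ ^ 2))

/-- the mean square of the mollified zeta function (`HM.S_ZM` with `z = 2`) -/
def T_ZW : Prop := ∀ D : ℝ, 0 < D → ∃ a b : ℝ, 0 < a ∧ 0 < b ∧ ∃ lam δ0 : ℝ, 0 < δ0 ∧ δ0 ≤ 1 / 16 ∧
  ∀ᶠ X : ℝ in atTop, ∀ δ : ℝ, 0 < δ → δ ≤ δ0 → lam * Real.log (1 / δ) ≤ δ * Real.log X →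
  ∀ (y : ℝ) (K : ℕ), 2 ≤ y → a * Real.log (1 / δ) ≤ δ * Real.log y → b * Real.log (1 / δ) ≤ K →
  K * Real.log y ≤ Real.log X / 100 → ∀ δ' : ℝ, δ / 2 ≤ δ' → δ' ≤ 3 * δ / 2 →
  ∫ t in (X ^ ((9:ℝ) / 10))..(2 * X), ‖riemannZeta (pw δ' t) * AS (-1) y K (pw δ' t) - 1‖ ^ 2 ≤ X * δ ^ D

/-- the sum over the primes in windows (`HM.S_XS2` with `z = 2`) -/
def T_XW : Prop := ∀ D : ℝ, 0 < D → ∃ a b : ℝ, 0 < a ∧ 0 < b ∧ ∃ δ0 : ℝ, 0 < δ0 ∧ δ0 ≤ 1 / 16 ∧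
  ∀ᶠ X : ℝ in atTop, ∀ δ : ℝ, 0 < δ → δ ≤ δ0 → ∀ y : ℝ, 2 ≤ y →
  b * Real.log (1 / δ) * Real.log y ≤ Real.log X → 1 / δ ≤ Real.log X → ∀ H : ℝ, 0 ≤ H → H ≤ X ^ ((1:ℝ) / 2) →
  volume {t : ℝ | X ^ ((9:ℝ) / 10) + 1 ≤ t ∧ t ≤ X ∧ ∃ u : ℝ, t ≤ u ∧ u ≤ t + H ∧
      a * Real.log (1 / δ) < ‖∑ p ∈ PA y, (p:ℂ) ^ (-(pw δ u))‖} ≤ ENNReal.ofReal ((H + 2) * X * δ ^ D)

theorem F_diff (y : ℝ) (K : ℕ) :
    DifferentiableOn ℂ (fun s => riemannZeta s * AS (-1) y K s - 1) {s : ℂ | 1 / 2 < s.re ∧ s.re < 1} := by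
  intro s hs
  have hne : s ≠ 1 := by
    intro h
    rw [h] at hs
    have := hs.2
    simp at this
  exact (((differentiableAt_riemannZeta hne).mul (AS_diff (-1) y K s)).sub
    (differentiableAt_const _)).differentiableWithinAt

theorem half_re {δ : ℝ} (hδ : 0 < δ) (u : ℝ) : 1 / 2 ≤ (pw δ u).re := by
  have : (pw δ u).re = 1 / 2 + δ := by simp [pw]
  rw [this]
  linarith

/-- at the good points -/
theorem point {q ε δ C y a v e u : ℝ} {K : ℕ} (hq : 1 ≤ q) (hε : 0 < ε) (hδ : 0 < δ) (hδ16 : δ ≤ 1 / 16)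
    (hcmp : ‖((‖riemannZeta (pw δ u)‖ : ℝ) : ℂ) ^ (2 * (q:ℂ)) - AS (q:ℂ) y K (pw δ u) *
      (starRingEnd ℂ) (AS ((starRingEnd ℂ) (q:ℂ)) y K (pw δ u))‖ ≤ e * Real.exp (C * (a + v + 1)))
    (he : e * Real.exp (C * (a + v + 1)) ≤ 1) (hbig : δ ^ (-(q + ε)) ≤ ‖riemannZeta (pw δ u)‖) :
    δ ^ (-(q * (q + ε))) / 2 ≤ ‖AS (q:ℂ) y K (pw δ u)‖ := by
  have hq0 : 0 < q := by linarith
  set Z : ℝ := ‖riemannZeta (pw δ u)‖ with hZ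
  have hZ0 : 0 ≤ Z := norm_nonneg _
  set A : ℝ := ‖AS (q:ℂ) y K (pw δ u)‖ with hA
  have e1 : ((Z : ℝ) : ℂ) ^ (2 * (q:ℂ)) = ((Z ^ (2 * q) : ℝ) : ℂ) := by
    rw [Complex.ofReal_cpow hZ0]
    push_cast
    rfl
  rw [Complex.conj_ofReal, AS_sq, e1, ← Complex.ofReal_sub, Complex.norm_real, Real.norm_eq_abs] at hcmp
  have h1 := (abs_le.1 (hcmp.trans he)).2
  have h2 : δ ^ (-(2 * (q * (q + ε)))) ≤ Z ^ (2 * q) := by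
    calc δ ^ (-(2 * (q * (q + ε)))) = (δ ^ (-(q + ε))) ^ (2 * q) := by
          rw [← Real.rpow_mul hδ.le]
          congr 1
          ring
      _ ≤ Z ^ (2 * q) := Real.rpow_le_rpow (Real.rpow_nonneg hδ.le _) hbig (by linarith)
  have h3 : δ ^ (-(2 * (q * (q + ε)))) = (δ ^ (-(q * (q + ε)))) ^ 2 := by
    rw [← Real.rpow_natCast, ← Real.rpow_mul hδ.le]
    congr 1
    push_cast
    ring
  have h4 : 16 ≤ δ ^ (-(q * (q + ε))) := by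
    have h5 : δ ^ (-(1:ℝ)) ≤ δ ^ (-(q * (q + ε))) := by
      apply Real.rpow_le_rpow_of_exponent_ge hδ (by linarith)
      have : 1 ≤ q * (q + ε) := by nlinarith
      linarith
    refine le_trans ?_ h5
    rw [Real.rpow_neg_one, ← one_div, le_div_iff₀ hδ]
    linarith
  set W : ℝ := δ ^ (-(q * (q + ε))) with hW
  rw [h3] at h2
  have h6 : W ^ 2 ≤ A ^ 2 + 1 := by linarith
  have h7 : (W / 2) ^ 2 ≤ A ^ 2 := by nlinarith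
  exact le_of_sq_le_sq' h7 (norm_nonneg _)
where
  le_of_sq_le_sq' {a b : ℝ} (h : a ^ 2 ≤ b ^ 2) (hb : 0 ≤ b) : a ≤ b := by
    by_contra hc
    push Not at hc
    nlinarith

end Run7.h42.WN
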