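import Pool.Agent.Run7.h291.WN.Stm
import Pool.Agent.N748.GC.ERG
import Pool.Agent.N748.GC.COS
import Pool.Agent.N748.MJ.BND
import Pool.Agent.N748.MJ.GVB
import Pool.Agent.N748.MJ.POSV

set_option autoImplicit false

namespace Run7.h42.WN

open Finset Filter MeasureTheory Topology Complex UnitAddTorus
open Pool.Agent.N748.MG Pool.Agent.N748.MJ Run7.h291.WN
open Pool.Agent.N748.MG.CON (lR lC_ofReal lC_zero lC_one lC_bd bb bb_sum FF FF_summable Gp Gp_bd)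
open Pool.Agent.N748.GC (pt HP Sm S_ERG)

theorem lV2 (k h : ℝ) (q m : ℕ) : lV (fun _ : Fin 2 => (k:ℂ)) ![0, h] q m =
    ∑ u ∈ antidiagonal m, lC k u.1 * lC k u.2 * (q:ℂ) ^ (-((((u.2:ℝ) * h : ℝ) : ℂ) * I)) := by
  unfold lV
  rw [Finset.piAntidiag_univ_fin_eq_antidiagonalTuple, Finset.Nat.antidiagonalTuple_two, sum_map]
  refine sum_congr rfl fun u _ => ?_
  simp [Fin.prod_univ_two]
  ring

/-- the coefficients on the circle -/
noncomputable def tm (k : ℝ) (m : ℕ) (θ : UnitAddCircle) : ℂ :=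
  ∑ u ∈ antidiagonal m, ((lR k u.1 * lR k u.2 : ℝ) : ℂ) * fourier (u.2 : ℤ) θ

theorem tm_cont (k : ℝ) (m : ℕ) : Continuous (tm k m) := by
  unfold tm
  refine continuous_finsetSum _ fun u _ => continuous_const.mul (fourier _).continuous

/-- the point of the circle -/
noncomputable def pc (p : ℕ) (t : ℝ) : UnitAddCircle := ((-(t * Real.log p / (2 * Real.pi)) : ℝ) : UnitAddCircle)

theorem four_pc {p : ℕ} (hp : 0 < p) (n : ℕ) (t : ℝ) :
    fourier (n : ℤ) (pc p t) = (p:ℂ) ^ (-((((n:ℝ) * t : ℝ) : ℂ) * I)) := by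
  unfold pc
  rw [fourier_coe_apply, Complex.cpow_def_of_ne_zero (by exact_mod_cast hp.ne'), ← Complex.natCast_log]
  congr 1
  have hpi : (Real.pi : ℂ) ≠ 0 := by exact_mod_cast Real.pi_ne_zero
  push_cast
  field_simp

theorem lV_tm {p : ℕ} (hp : 0 < p) (k h : ℝ) (m : ℕ) :
    lV (fun _ : Fin 2 => (k:ℂ)) ![0, h] p m = tm k m (pc p h) := by
  rw [lV2]
  unfold tm
  refine sum_congr rfl fun u _ => ?_
  rw [four_pc hp, lC_ofReal, lC_ofReal]
  push_cast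
  rfl

theorem lR_nonneg {k : ℝ} (hk : 0 ≤ k) (m : ℕ) : 0 ≤ lR k m := by
  unfold lR
  exact prod_nonneg fun i _ => by positivity

theorem lR_add (k l : ℝ) (m : ℕ) : ∑ u ∈ antidiagonal m, lR k u.1 * lR l u.2 = lR (k + l) m := by
  have h := POSV.lC_add (k:ℂ) (l:ℂ) m
  rw [← Complex.ofReal_add, lC_ofReal] at h
  simp only [lC_ofReal] at h
  exact_mod_cast h

theorem tm_bd {k : ℝ} (hk : 0 ≤ k) (m : ℕ) (θ : UnitAddCircle) : ‖tm k m θ‖ ≤ lR (k + k) m := by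
  unfold tm
  rw [← lR_add]
  refine (norm_sum_le _ _).trans (sum_le_sum fun u _ => ?_)
  rw [norm_mul, Complex.norm_real, Real.norm_of_nonneg (mul_nonneg (lR_nonneg hk _) (lR_nonneg hk _))]
  have : ‖(fourier (u.2 : ℤ) θ : ℂ)‖ = 1 := by
    rw [fourier_apply]; exact Circle.norm_coe _
  rw [this, mul_one]


/-- the mean over the circle -/
noncomputable abbrev HA : Measure UnitAddCircle := AddCircle.haarAddCircle (T := (1:ℝ))

theorem int_four (a b : ℕ) : ∫ θ, fourier (a : ℤ) θ * (starRingEnd ℂ) (fourier (b : ℤ) θ) ∂HA =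
    if a = b then 1 else 0 := by
  have h1 : ∀ θ : UnitAddCircle, fourier (a : ℤ) θ * (starRingEnd ℂ) (fourier (b : ℤ) θ) =
      fourier ((a : ℤ) - b) θ := by
    intro θ
    rw [← fourier_neg, ← fourier_add, sub_eq_add_neg]
  simp_rw [h1]
  split_ifs with h
  · subst h
    simp
  · exact Pool.Agent.N748.GC.ERG.int_fourier _ (by omega)

theorem int_ok (f : UnitAddCircle → ℂ) (hf : Continuous f) : Integrable f HA :=
  hf.integrable_of_hasCompactSupport (HasCompactSupport.of_compactSpace _)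

theorem int_okR (f : UnitAddCircle → ℝ) (hf : Continuous f) : Integrable f HA :=
  hf.integrable_of_hasCompactSupport (HasCompactSupport.of_compactSpace _)

theorem int_tm (k : ℝ) (m : ℕ) : ∫ θ, ‖tm k m θ‖ ^ 2 ∂HA =
    ∑ u ∈ antidiagonal m, (lR k u.1 * lR k u.2) ^ 2 := by
  have h1 : ∀ θ : UnitAddCircle, ((‖tm k m θ‖ ^ 2 : ℝ) : ℂ) =
      ∑ u ∈ antidiagonal m, ∑ v ∈ antidiagonal m,
        (((lR k u.1 * lR k u.2 : ℝ) : ℂ) * ((lR k v.1 * lR k v.2 : ℝ) : ℂ)) *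
          (fourier (u.2 : ℤ) θ * (starRingEnd ℂ) (fourier (v.2 : ℤ) θ)) := by
    intro θ
    have := Complex.mul_conj' (tm k m θ)
    push_cast
    rw [← this]
    unfold tm
    rw [map_sum, sum_mul_sum]
    refine sum_congr rfl fun u _ => sum_congr rfl fun v _ => ?_
    rw [map_mul, Complex.conj_ofReal]
    push_cast
    ring
  have h2 : ∫ θ, ((‖tm k m θ‖ ^ 2 : ℝ) : ℂ) ∂HA = ((∑ u ∈ antidiagonal m, (lR k u.1 * lR k u.2) ^ 2 : ℝ) : ℂ) := by
    simp_rw [h1]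
    have hc : ∀ u v : ℕ × ℕ, Continuous fun θ : UnitAddCircle =>
        (((lR k u.1 * lR k u.2 : ℝ) : ℂ) * ((lR k v.1 * lR k v.2 : ℝ) : ℂ)) *
          (fourier (u.2 : ℤ) θ * (starRingEnd ℂ) (fourier (v.2 : ℤ) θ)) := fun u v =>
      continuous_const.mul ((fourier _).continuous.mul (Complex.continuous_conj.comp (fourier _).continuous))
    rw [integral_finsetSum _ fun u _ => int_ok _ (continuous_finsetSum _ fun v _ => hc u v)]
    rw [Complex.ofReal_sum]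
    refine sum_congr rfl fun u hu => ?_
    rw [integral_finsetSum _ fun v _ => int_ok _ (hc u v)]
    rw [sum_eq_single u]
    · rw [integral_const_mul, int_four, if_pos rfl]
      push_cast
      ring
    · intro v hv hne
      rw [integral_const_mul, int_four, if_neg, mul_zero]
      intro h
      apply hne
      have e1 := mem_antidiagonal.1 hu
      have e2 := mem_antidiagonal.1 hv
      refine Prod.ext ?_ h.symm
      omega
    · intro h
      exact absurd hu h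
  have h3 := integral_ofReal (𝕜 := ℂ) (μ := HA) (f := fun θ => ‖tm k m θ‖ ^ 2)
  have h4 : ((∫ θ, ‖tm k m θ‖ ^ 2 ∂HA : ℝ) : ℂ) = ((∑ u ∈ antidiagonal m, (lR k u.1 * lR k u.2) ^ 2 : ℝ) : ℂ) := by
    rw [← h2]
    exact h3.symm
  exact_mod_cast h4


/-- the sum on the circle -/
noncomputable def SR (k : ℝ) (p : ℕ) (θ : UnitAddCircle) : ℝ := ∑' m : ℕ, ‖tm k m θ‖ ^ 2 * (1 / (p:ℝ)) ^ m

/-- the sum -/
noncomputable def FR (k : ℝ) (p : ℕ) : ℝ := ∑' m : ℕ, lR k m ^ 2 * (1 / (p:ℝ)) ^ m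

theorem pinv {p : ℕ} (hp : p.Prime) : 0 < 1 / (p:ℝ) ∧ 1 / (p:ℝ) ≤ 1 / 2 := by
  have : (2 : ℝ) ≤ p := by exact_mod_cast hp.two_le
  exact ⟨by positivity, one_div_le_one_div_of_le (by norm_num) this⟩

theorem FR_sum (k : ℝ) {p : ℕ} (hp : p.Prime) : Summable fun m : ℕ => lR k m ^ 2 * (1 / (p:ℝ)) ^ m := by
  obtain ⟨h0, h1⟩ := pinv hp
  have h := (FF_summable (s := (k:ℂ)) (x := ((1 / (p:ℝ) : ℝ) : ℂ))
    (by rw [Complex.norm_real, Real.norm_of_nonneg h0.le]; exact h1)).norm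
  refine Summable.of_norm (h.congr fun m => ?_)
  rw [lC_ofReal, norm_mul, norm_mul, norm_pow, norm_pow, norm_pow, norm_pow, Complex.norm_real,
    Complex.norm_real]

theorem lR_zero (k : ℝ) : lR k 0 = 1 := by
  unfold lR
  simp

theorem FR_one (k : ℝ) {p : ℕ} (hp : p.Prime) : 1 ≤ FR k p := by
  have h1 := (FR_sum k hp).le_tsum 0 fun m _ => by
    have := (pinv hp).1
    positivity
  rw [lR_zero] at h1
  unfold FR
  linarith

theorem tm2_bd {k : ℝ} (hk : 0 ≤ k) {p : ℕ} (hp : p.Prime) (m : ℕ) (θ : UnitAddCircle) :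
    ‖tm k m θ‖ ^ 2 * (1 / (p:ℝ)) ^ m ≤ lR (k + k) m ^ 2 * (1 / (p:ℝ)) ^ m :=
  mul_le_mul_of_nonneg_right (pow_le_pow_left₀ (norm_nonneg _) (tm_bd hk m θ) 2)
    (pow_nonneg (pinv hp).1.le _)

theorem tm2_norm {k : ℝ} (hk : 0 ≤ k) {p : ℕ} (hp : p.Prime) (m : ℕ) (θ : UnitAddCircle) :
    ‖‖tm k m θ‖ ^ 2 * (1 / (p:ℝ)) ^ m‖ ≤ lR (k + k) m ^ 2 * (1 / (p:ℝ)) ^ m := by
  rw [Real.norm_of_nonneg (mul_nonneg (by positivity) (pow_nonneg (pinv hp).1.le _))]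
  exact tm2_bd hk hp m θ

theorem SR_sum {k : ℝ} (hk : 0 ≤ k) {p : ℕ} (hp : p.Prime) (θ : UnitAddCircle) :
    Summable fun m : ℕ => ‖tm k m θ‖ ^ 2 * (1 / (p:ℝ)) ^ m :=
  Summable.of_norm_bounded (FR_sum (k + k) hp) fun m => tm2_norm hk hp m θ

theorem SR_le {k : ℝ} (hk : 0 ≤ k) {p : ℕ} (hp : p.Prime) (θ : UnitAddCircle) :
    SR k p θ ≤ FR (k + k) p :=
  (SR_sum hk hp θ).tsum_le_tsum (fun m => tm2_bd hk hp m θ) (FR_sum (k + k) hp)

theorem SR_nonneg (k : ℝ) {p : ℕ} (hp : p.Prime) (θ : UnitAddCircle) : 0 ≤ SR k p θ :=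
  tsum_nonneg fun m => mul_nonneg (by positivity) (pow_nonneg (pinv hp).1.le _)

theorem SR_cont {k : ℝ} (hk : 0 ≤ k) {p : ℕ} (hp : p.Prime) : Continuous (SR k p) := by
  unfold SR
  refine continuous_tsum (fun m => ?_) (FR_sum (k + k) hp) fun m θ => tm2_norm hk hp m θ
  exact ((tm_cont k m).norm.pow 2).mul continuous_const

theorem SR_int {k : ℝ} (hk : 0 ≤ k) {p : ℕ} (hp : p.Prime) : ∫ θ, SR k p θ ∂HA = FR k p ^ 2 := by
  have hx := (pinv hp).1.le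
  unfold SR
  have hc : ∀ m : ℕ, Continuous fun θ : UnitAddCircle => ‖tm k m θ‖ ^ 2 * (1 / (p:ℝ)) ^ m := fun m =>
    ((tm_cont k m).norm.pow 2).mul continuous_const
  rw [← integral_tsum_of_summable_integral_norm (fun m => int_okR _ (hc m))]
  · have h1 : ∀ m : ℕ, ∫ θ, ‖tm k m θ‖ ^ 2 * (1 / (p:ℝ)) ^ m ∂HA =
        ∑ u ∈ antidiagonal m, (lR k u.1 ^ 2 * (1 / (p:ℝ)) ^ u.1) * (lR k u.2 ^ 2 * (1 / (p:ℝ)) ^ u.2) := by
      intro m
      rw [integral_mul_const, int_tm, sum_mul]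
      refine sum_congr rfl fun u hu => ?_
      rw [← mem_antidiagonal.1 hu, pow_add]
      ring
    rw [tsum_congr h1]
    have hs := (FR_sum k hp).norm
    have h2 := tsum_mul_tsum_eq_tsum_sum_antidiagonal_of_summable_norm hs hs
    rw [← h2, sq]
    rfl
  · refine Summable.of_nonneg_of_le (fun m => integral_nonneg fun θ => norm_nonneg _) (fun m => ?_)
      (FR_sum (k + k) hp)
    have h3 := integral_mono (μ := HA) (int_okR _ (hc m).norm) (int_okR _ continuous_const)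
      (fun θ => tm2_norm hk hp m θ)
    rw [integral_const] at h3
    simpa using h3


theorem FF_FR (k : ℝ) (p : ℕ) : FF (k:ℂ) (1 / (p:ℂ)) = ((FR k p : ℝ) : ℂ) := by
  unfold FF FR
  rw [Complex.ofReal_tsum]
  refine tsum_congr fun m => ?_
  rw [lC_ofReal]
  push_cast
  rfl

theorem FR_bd (k : ℝ) : ∃ C : ℝ, 0 < C ∧ ∀ p : ℕ, p.Prime → FR k p ≤ Real.exp (C * (1 / (p:ℝ))) := by
  obtain ⟨K, hK⟩ := exists_nat_ge ‖(k:ℂ)‖
  set A : ℝ := ∑' m, bb K 3 m with hA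
  have hA0 : 0 ≤ A := tsum_nonneg fun m => by unfold bb; positivity
  refine ⟨k ^ 2 + A + 1, by positivity, fun p hp => ?_⟩
  obtain ⟨h0, h1⟩ := pinv hp
  have hn : ‖(1 / (p:ℂ))‖ = 1 / (p:ℝ) := by rw [norm_div, norm_one, Complex.norm_natCast]
  obtain ⟨q, hq, hq'⟩ := Pool.Agent.N748.MG.CON.FF_exp K hK (x := 1 / (p:ℂ)) (by rw [hn]; exact h1)
  rw [FF_FR k p] at hq
  rw [hn, ← hA] at hq'
  have h2 : FR k p = ‖(1:ℂ) + (k:ℂ) ^ 2 * (1 / (p:ℂ)) + q‖ := by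
    rw [← hq, Complex.norm_real, Real.norm_of_nonneg ((zero_le_one).trans (FR_one k hp))]
  have h3 : ‖(1:ℂ) + (k:ℂ) ^ 2 * (1 / (p:ℂ)) + q‖ ≤ 1 + k ^ 2 * (1 / (p:ℝ)) + A * (1 / (p:ℝ)) ^ 2 := by
    refine (norm_add_le _ _).trans (add_le_add ((norm_add_le _ _).trans ?_) hq')
    rw [norm_one, norm_mul, norm_pow, hn, Complex.norm_real, Real.norm_eq_abs, sq_abs]
  have h4 := Real.add_one_le_exp ((k ^ 2 + A + 1) * (1 / (p:ℝ)))
  have h5 : A * (1 / (p:ℝ)) ^ 2 ≤ A * (1 / (p:ℝ)) := by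
    apply mul_le_mul_of_nonneg_left _ hA0
    nlinarith
  rw [h2]
  nlinarith

/-- the density of a prime -/
noncomputable def rr (k : ℝ) (p : ℕ) (θ : UnitAddCircle) : ℝ := SR k p θ / FR k p ^ 2

theorem rr_nonneg (k : ℝ) {p : ℕ} (hp : p.Prime) (θ : UnitAddCircle) : 0 ≤ rr k p θ :=
  div_nonneg (SR_nonneg k hp θ) (sq_nonneg _)

theorem rr_cont {k : ℝ} (hk : 0 ≤ k) {p : ℕ} (hp : p.Prime) : Continuous (rr k p) := by
  unfold rr
  exact (SR_cont hk hp).div_const _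

theorem rr_int {k : ℝ} (hk : 0 ≤ k) {p : ℕ} (hp : p.Prime) : ∫ θ, rr k p θ ∂HA = 1 := by
  unfold rr
  rw [integral_div, SR_int hk hp, div_self]
  have := FR_one k hp
  positivity

theorem rr_le {k : ℝ} (hk : 0 ≤ k) {p : ℕ} (hp : p.Prime) (θ : UnitAddCircle) :
    rr k p θ ≤ FR (k + k) p := by
  unfold rr
  have h1 := FR_one k hp
  refine (div_le_self (SR_nonneg k hp θ) (one_le_pow₀ h1)).trans (SR_le hk hp θ)

/-- the density of the primes below `z` -/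
noncomputable def PR (k : ℝ) (z : ℕ) (x : UnitAddTorus (Sm z)) : ℝ := ∏ p : Sm z, rr k p (x p)

theorem Sm_prime {z : ℕ} (p : ℕ) (hp : p ∈ Sm z) : p.Prime := by
  unfold Pool.Agent.N748.GC.Sm at hp
  exact (mem_filter.1 hp).2

theorem PR_cont {k : ℝ} (hk : 0 ≤ k) (z : ℕ) : Continuous (PR k z) := by
  unfold PR
  refine continuous_finsetProd _ fun p _ => (rr_cont hk (Sm_prime p p.2)).comp (continuous_apply p)

theorem PR_int {k : ℝ} (hk : 0 ≤ k) (z : ℕ) : ∫ x, PR k z x ∂(HP (Sm z)) = 1 := by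
  unfold PR Pool.Agent.N748.GC.HP
  rw [integral_fintype_prod_eq_prod (fun (p : Sm z) (θ : UnitAddCircle) => rr k p θ)]
  exact prod_eq_one fun p _ => rr_int hk (Sm_prime p p.2)

theorem PR_pt (k : ℝ) (z : ℕ) (h : ℝ) : PR k z (pt (Sm z) h) = ∏ p ∈ Sm z, rr k p (pc p h) := by
  unfold PR
  exact (Finset.prod_coe_sort (Sm z) fun p => rr k p (pc p h))

theorem PR_nonneg (k : ℝ) (z : ℕ) (x : UnitAddTorus (Sm z)) : 0 ≤ PR k z x :=
  prod_nonneg fun p _ => rr_nonneg k (Sm_prime p p.2) _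

/-- the primes below `z` -/
theorem mert : ∃ C : ℝ, 0 < C ∧ ∀ z : ℕ, 3 ≤ z → ∑ p ∈ Sm z, 1 / (p:ℝ) ≤ Real.log (Real.log z) + C := by
  obtain ⟨C, hC, h⟩ := Pool.Agent.N748.GC.COS.mer
  have hl2 : 0 < Real.log 2 := Real.log_pos (by norm_num)
  refine ⟨C / Real.log 2 + |Real.log (Real.log 2)| + 1, by positivity, fun z hz => ?_⟩
  have hz' : (3:ℝ) ≤ z := by exact_mod_cast hz
  have h1 := h 2 z le_rfl (by push_cast; linarith)
  have hly : 0 < Real.log z := Real.log_pos (by linarith)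
  have h3 := (abs_le.1 h1).2
  have h4 : Real.log (Real.log z / Real.log ((2:ℕ):ℝ)) = Real.log (Real.log z) - Real.log (Real.log 2) := by
    rw [Real.log_div hly.ne' (by push_cast; exact hl2.ne')]
    push_cast
    rfl
  have h5 : ∑ p ∈ Sm z, 1 / (p:ℝ) ≤ ∑ p ∈ (Icc 2 ⌊(z:ℝ)⌋₊).filter Nat.Prime, 1 / (p:ℝ) := by
    refine sum_le_sum_of_subset_of_nonneg (fun p hp => ?_) fun _ _ _ => by positivity
    unfold Pool.Agent.N748.GC.Sm at hp
    rw [mem_filter, mem_range] at hp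
    rw [mem_filter, mem_Icc, Nat.floor_natCast]
    exact ⟨⟨hp.2.two_le, hp.1.le⟩, hp.2⟩
  have h6 := neg_abs_le (Real.log (Real.log 2))
  rw [h4] at h3
  push_cast at h3
  linarith

theorem PR_bd {k : ℝ} (hk : 0 ≤ k) : ∃ A B : ℝ, 0 < A ∧ 0 < B ∧ ∀ z : ℕ, 3 ≤ z → ∀ x : UnitAddTorus (Sm z),
    PR k z x ≤ A * Real.log z ^ B := by
  obtain ⟨B, hB, hF⟩ := FR_bd (k + k)
  obtain ⟨C, hC, hM⟩ := mert
  refine ⟨Real.exp (B * C), B, Real.exp_pos _, hB, fun z hz x => ?_⟩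
  have hz' : (3:ℝ) ≤ z := by exact_mod_cast hz
  have hly : 0 < Real.log z := Real.log_pos (by linarith)
  calc PR k z x ≤ ∏ p : Sm z, Real.exp (B * (1 / ((p:ℕ):ℝ))) :=
        prod_le_prod (fun p _ => rr_nonneg k (Sm_prime p p.2) _) fun p _ =>
          (rr_le hk (Sm_prime p p.2) _).trans (hF p (Sm_prime p p.2))
    _ = Real.exp (B * ∑ p ∈ Sm z, 1 / (p:ℝ)) := by
        rw [← Real.exp_sum, mul_sum]
        congr 1
        exact Finset.sum_coe_sort (Sm z) fun p => B * (1 / (p:ℝ))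
    _ ≤ Real.exp (B * (Real.log (Real.log z) + C)) :=
        Real.exp_le_exp.2 (mul_le_mul_of_nonneg_left (hM z hz) hB.le)
    _ = Real.exp (B * C) * Real.log z ^ B := by
        rw [Real.rpow_def_of_pos hly, ← Real.exp_add]
        congr 1
        ring

end Run7.h42.WN
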